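import Pool.Agent.R865.DPFinal

/-!
# Closed points in general position on unirational del Pezzo surfaces of degree 3 and 4

Let `k` be an infinite field (of any characteristic), `K` its algebraic closure and `X` a
unirational del Pezzo surface over `k` of degree `d = c + 2`, where `d = 3` (a smooth cubic
surface, one form of degree `3` in four variables) or `d = 4` (a smooth intersection of two
quadrics, two forms of degree `2` in five variables), anticanonically embedded in the projective
space of dimension `d`. Let `n 1, ..., n 8` be the multiplicities of a partition of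
`n = ∑ i * n i ≤ d - 1` such that `k` has a separable extension of degree `i` whenever `n i > 0`.
Then `X` has a finite set `M` of closed points with separable residue fields, exactly `n i` of
them of degree `i` for every `i`, and whose geometric points are in general position.
-/

universe u

namespace Pool.Agent.Results.MP_bd1cc3_ag.ClosedPoints

open MvPolynomial LinearAlgebra.Projectivization Pool.Agent.R865.DP

theorem result {k : Type u} [Field k] [Infinite k] {c e : ℕ}
    (hce : (c = 1 ∧ e = 3) ∨ (c = 2 ∧ e = 2))
    (F : Fin c → MvPolynomial (Fin (c + 3)) k)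
    (hX : IsDelPezzo e (fun a => map (algebraMap k (AlgebraicClosure k)) (F a)))
    (hU : IsUnirational (AlgebraicClosure k) F)
    (n : ℕ → ℕ) (hn : ∑ i ∈ Finset.Icc 1 8, i * n i ≤ c + 1)
    (hsep : ∀ i ∈ Finset.Icc 1 8, 0 < n i → ∃ (L : Type u) (_ : Field L) (_ : Algebra k L),
      Algebra.IsSeparable k L ∧ Module.finrank k L = i) :
    ∃ M : Set (Set (ℙ (AlgebraicClosure k) (Fin (c + 3) → AlgebraicClosure k))), M.Finite ∧
      (∀ O ∈ M, IsSepClosedPoint (AlgebraicClosure k) F O ∧ O.ncard ∈ Finset.Icc 1 8) ∧
      (∀ i ∈ Finset.Icc 1 8, {O ∈ M | O.ncard = i}.ncard = n i) ∧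
      InGeneralPosition (fun a => map (algebraMap k (AlgebraicClosure k)) (F a)) (⋃₀ M) :=
  final hce F hX hU n hn hsep

end Pool.Agent.Results.MP_bd1cc3_ag.ClosedPoints
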